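import Mathlib
import Pool.Agent.Y241.EX.Basic
import Pool.Agent.Y241.EX.Cube

/-!
# Exponents for which `x ^ n - n` is never a perfect power

`x ^ n - n = X ^ 2 - k ^ 2 = (X - k) (X + k)` when `n = k ^ 2` and `x ^ n = X ^ 2`, and
`x ^ n - n = X ^ 3 - k ^ 3 = (X - k) (X ^ 2 + X k + k ^ 2)` when `n = k ^ 3` and `x ^ n = X ^ 3`.
If two (three) divides `x n`, then the exponents of all primes in both factors are multiples of `m`,
so that the factors are `m`-th powers, which contradicts their size.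
-/

set_option autoImplicit false

namespace Pool.Agent.Results.MP_6050fa_nt.MinusEquation

open Pool.Agent.Y241.EX

/-- Let `x, n, y, m ≥ 2`. If `n` is a perfect square and either `n` is even or `x` is an even perfect
square, or if `n` is a perfect cube and either `n` is divisible by three or `x` is a perfect cube
divisible by three, then `x ^ n - n ≠ y ^ m`. -/
theorem result (x n y m : ℕ) (hx : 2 ≤ x) (hn : 2 ≤ n) (hy : 2 ≤ y) (hm : 2 ≤ m)
    (h : ((∃ k : ℕ, n = k ^ 2) ∧ (2 ∣ n ∨ (2 ∣ x ∧ ∃ z : ℕ, x = z ^ 2))) ∨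
      ((∃ k : ℕ, n = k ^ 3) ∧ (3 ∣ n ∨ (3 ∣ x ∧ ∃ z : ℕ, x = z ^ 3)))) :
    (x : ℤ) ^ n - n ≠ (y : ℤ) ^ m := by
  intro he
  have h1 : x ^ n = y ^ m + n := by
    have h2 : (x : ℤ) ^ n = (y : ℤ) ^ m + n := by omega
    exact_mod_cast h2
  rcases h with ⟨⟨k, hk⟩, hc⟩ | ⟨⟨k, hk⟩, hc⟩
  · rcases hc with ⟨r, hr⟩ | ⟨hev, z, hz⟩
    · exact sq_case (k := k) (X := x ^ r) hx hn hy hm hk (by rw [hr, two_mul, pow_add, sq])
        (Or.inr ⟨r, by omega⟩) h1
    · exact sq_case (k := k) (X := z ^ n) hx hn hy hm hk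
        (by rw [hz, ← pow_mul, ← pow_mul, mul_comm]) (Or.inl (even_iff_two_dvd.2 hev)) h1
  · rcases hc with ⟨r, hr⟩ | ⟨h3, z, hz⟩
    · refine cube_minus (k := k) (X := x ^ r) hx hn hy hm hk
        (by rw [← pow_mul, hr, mul_comm]) (Or.inl ?_) (Or.inl ⟨r, hr⟩) h1
      have h2 : 3 ∣ k ^ 3 := by
        rw [← hk]
        exact ⟨r, hr⟩
      exact Nat.prime_three.dvd_of_dvd_pow h2
    · exact cube_minus (k := k) (X := z ^ n) hx hn hy hm hk
        (by rw [hz, ← pow_mul, ← pow_mul, mul_comm]) (Or.inr h3) (Or.inr ⟨z, hz⟩) h1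

end Pool.Agent.Results.MP_6050fa_nt.MinusEquation
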