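import Mathlib
import Pool.Agent.Y241.EX.Basic
import Pool.Agent.Y241.EX.Cube

/-!
# Exponents for which `x ^ n + n` is never a perfect power

`x ^ n + n = X ^ 4 + 4 t ^ 4 = (X ^ 2 - 2 X t + 2 t ^ 2) (X ^ 2 + 2 X t + 2 t ^ 2)` when
`n = 4 t ^ 4`, and `x ^ n + n = X ^ 3 + k ^ 3 = (X + k) (X ^ 2 - X k + k ^ 2)` when `n = k ^ 3` and
`x ^ n = X ^ 3`. The exponents of all primes in both factors are multiples of `m` (in the second
case if `3` divides `x n`), so that the factors are `m`-th powers, which contradicts their size.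
-/

set_option autoImplicit false

namespace Pool.Agent.Results.MP_6050fa_nt.PlusEquation

open Pool.Agent.Y241.EX

/-- Let `x, n, y, m ≥ 2`. If `n = 4 t ^ 4` for some `t`, or if `n` is a perfect cube and either `n` is
divisible by three or `x` is a perfect cube divisible by three, then `x ^ n + n ≠ y ^ m`. -/
theorem result (x n y m : ℕ) (hx : 2 ≤ x) (hn : 2 ≤ n) (hy : 2 ≤ y) (hm : 2 ≤ m)
    (h : (∃ t : ℕ, n = 4 * t ^ 4) ∨
      ((∃ k : ℕ, n = k ^ 3) ∧ (3 ∣ n ∨ (3 ∣ x ∧ ∃ z : ℕ, x = z ^ 3)))) :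
    (x : ℤ) ^ n + n ≠ (y : ℤ) ^ m := by
  intro he
  have h1 : x ^ n + n = y ^ m := by exact_mod_cast he
  rcases h with ⟨t, ht⟩ | ⟨⟨k, hk⟩, hc⟩
  · exact quart_case hx hn hy hm ht h1
  · rcases hc with ⟨r, hr⟩ | ⟨h3, z, hz⟩
    · refine cube_plus (k := k) (X := x ^ r) hx hn hy hm hk
        (by rw [← pow_mul, hr, mul_comm]) (Or.inl ?_) (Or.inl ⟨r, hr⟩) h1
      have h2 : 3 ∣ k ^ 3 := by
        rw [← hk]
        exact ⟨r, hr⟩
      exact Nat.prime_three.dvd_of_dvd_pow h2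
    · exact cube_plus (k := k) (X := z ^ n) hx hn hy hm hk
        (by rw [hz, ← pow_mul, ← pow_mul, mul_comm]) (Or.inr h3) (Or.inr ⟨z, hz⟩) h1

end Pool.Agent.Results.MP_6050fa_nt.PlusEquation
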